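import Pool.Agent.W_448j6_h22.KbE
import Pool.Agent.W_448p_h97.PcA
import Pool.Agent.W_448fin_h16.FnK

/-!
MP_448cb3_co, G2, case B: THE WINDOW `j`, interface for the window `j - 1` route.  helper28.

For `h : NJ P r j` (levels less than `j` good, no element of level `j + 1` below two tops), with no
hypothesis on the values (3,2):

* `NJ.tot_w3`, `NJ.tot_al2`, `NJ.tot_Lv`, `NJ.tot_w6`: the four totals (3,2), (2,1), `F` (logarithmic
  form `al2 + Q4`), (6,4);
* `NJ.tot_win`: the total `al * F + ka * w32 + rh * (w32 ^ 2 - 2 w64)` plus twice the costs of the joins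
  is zero, for all integers `al, ka, rh`;
* `cost al rh j K z = al (1 + E1) + rh (E2 + E3)`: the cost of the join `z`; `cost_good`: it is at least
  `al` for every join whose double is not exceptional; `cost_bad`: it is `(al - rh) b` for an exceptional
  double, `b` the value of the single element;
* `NJ.tot_win_t`: the same total, with the joins assigned to the component of their double.
-/

namespace Pool.Agent.GaussPoset.EK

set_option linter.unusedSectionVars false

open Finset Win St Polynomial Wd Win.W4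

universe u

variable {P : Type u} [Fintype P] [PartialOrder P] [DecidableEq P] {r i j : ℕ}

variable {K : Finset P} {psi : P → P}

/-- the component of a top at the window `j` -/
noncomputable def Cj (j : ℕ) (t : Tops P) : Finset P := cext (j + 1) (topOf : P → Tops P) t

/-- the value (6,4) of a part -/
noncomputable def wv6 (i : ℕ) (C : Finset P) : ℤ := I2.w6 (st i C).card (ZS i C)

/-- the value (2,1) of a part -/
noncomputable def wv1 (i : ℕ) (C : Finset P) : ℤ := I2.al 2 (st i C).card (ZS i C)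

lemma v3_eq (j : ℕ) (t : Tops P) : v3 j t = wv j (Cj j t) := rfl

/-- the functional `F` in the logarithmic form and the old one -/
lemma Lv_eq_FF (j : ℕ) (t : Tops P) : Lv j (Cj j t) = FF j t +
    2 * I2.c1 (st j (Cj j t)).card (ZS j (Cj j t)) * wv j (Cj j t) := by
  unfold Lv FF Fn I2.Q4 wv Cj
  ring

lemma NJ.image_top (h : NJ P r j) : univ.image (topOf : P → Tops P) = univ :=
  eq_univ_iff_forall.2 (NJ.mem_img h)

/-- the cost of a join -/
noncomputable def cost (al rh : ℤ) (j : ℕ) (K : Finset P) (z : P) : ℤ :=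
  al * (1 + Ek j K (K2.Tz z) 1) + rh * (Ek j K (K2.Tz z) 2 + Ek j K (K2.Tz z) 3)

section tot

variable (h : NJ P r j) (hj : 2 ≤ j) (R : Red P j K psi)

include h hj R

/-- the four totals -/
theorem NJ.tot_all :
    ∑ t : Tops P, wv j (Cj j t) = 0 ∧ ∑ t : Tops P, wv1 j (Cj j t) = 0 ∧
    ∑ t : Tops P, Lv j (Cj j t) =
      - (2 * ∑ z ∈ K2.Z2 j (topOf : P → Tops P), (1 + Ek j K (K2.Tz z) 1)) ∧
    ∑ t : Tops P, (wv j (Cj j t) ^ 2 - 2 * wv6 j (Cj j t)) =
      - (2 * ∑ z ∈ K2.Z2 j (topOf : P → Tops P),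
        (Ek j K (K2.Tz z) 2 + Ek j K (K2.Tz z) 3)) := by
  have hjr : j ≤ r := by have := h.hr; omega
  have hP : ∀ a ∈ univ.image (topOf : P → Tops P),
      I2.PG (I2.bb j (j + 1) (topOf : P → Tops P) a) (I2.VV j (j + 1) (topOf : P → Tops P) a) :=
    fun a _ => NJ.PG h hj R a
  obtain ⟨h1, h2, h3⟩ := K2.four_two_gen h.g.H hjr (NJ.noQ h hj) (fun m hm => h.g.good m (by omega))
    h.split R.mat R.sub hP
  have h4 := K2.six_four h.g.H hjr (NJ.noQ h hj) (fun m hm => h.g.good m (by omega)) h.split R.mat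
    R.sub hP
  rw [NJ.image_top h] at h1 h2 h3 h4
  refine ⟨h1, h2, ?_, ?_⟩
  · have e : ∑ t : Tops P, Lv j (Cj j t) = ∑ t : Tops P, wv1 j (Cj j t) +
        ∑ a : Tops P, I2.Q4 (I2.bb j (j + 1) (topOf : P → Tops P) a)
          (I2.VV j (j + 1) (topOf : P → Tops P) a) := by
      rw [← sum_add_distrib]
      rfl
    have e2 : ∑ t : Tops P, wv1 j (Cj j t) = 0 := h2
    rw [e, e2, zero_add, h3]
    congr 2
    refine Finset.sum_congr rfl fun z _ => ?_
    rw [K2.Ek_zero R.sub]
    ring
  · refine (show _ = _ from h4).trans ?_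
    congr 2
    refine Finset.sum_congr rfl fun z _ => ?_
    ring

/-- THE TOTAL AT THE WINDOW `j`, all weights free -/
theorem NJ.tot_win (al ka rh : ℤ) :
    ∑ t : Tops P, (al * Lv j (Cj j t) + ka * wv j (Cj j t) +
      rh * (wv j (Cj j t) ^ 2 - 2 * wv6 j (Cj j t))) +
      2 * ∑ z ∈ K2.Z2 j (topOf : P → Tops P), cost al rh j K z = 0 := by
  obtain ⟨h1, -, h3, h4⟩ := NJ.tot_all h hj R
  have e : ∑ z ∈ K2.Z2 j (topOf : P → Tops P), cost al rh j K z =
      al * ∑ z ∈ K2.Z2 j (topOf : P → Tops P), (1 + Ek j K (K2.Tz z) 1) +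
      rh * ∑ z ∈ K2.Z2 j (topOf : P → Tops P), (Ek j K (K2.Tz z) 2 + Ek j K (K2.Tz z) 3) := by
    unfold cost
    rw [sum_add_distrib, ← mul_sum, ← mul_sum]
  rw [sum_add_distrib, sum_add_distrib, ← mul_sum, ← mul_sum, ← mul_sum, h1, h3, h4, e]
  ring

end tot

/-! ### the costs of the joins -/

section cost

variable (h : NJ P r j) (hj : 2 ≤ j) (R : Red P j K psi) {z y v : P}
  (S : K2.SD j (topOf : P → Tops P) z y v)

include h hj R S

/-- a join with a double which is not exceptional: all the numbers of families are nonnegative -/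
theorem NJ.join_good (hb : ¬ BadR P j y) : ∀ n, 1 ≤ n → 0 ≤ Ek j K (K2.Tz z) n := by
  intro n hn
  rcases Nat.lt_or_ge n 2 with h1 | h1
  · obtain rfl : n = 1 := by omega
    exact NJ.join_one h R S hj hb
  · exact NJ.join_nonneg h R S hj (fun h2 => absurd h2 hb) n h1

/-- the cost of a join with a double which is not exceptional -/
theorem NJ.cost_good (hb : ¬ BadR P j y) {al rh : ℤ} (hal : 0 ≤ al) (hrh : 0 ≤ rh) :
    al ≤ cost al rh j K z := by
  have h1 := NJ.join_good h hj R S hb 1 le_rfl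
  have h2 := NJ.join_good h hj R S hb 2 (by norm_num)
  have h3 := NJ.join_good h hj R S hb 3 (by norm_num)
  unfold cost
  have h4 := mul_nonneg hal h1
  have h5 := mul_nonneg hrh (add_nonneg h2 h3)
  linarith

/-- the values of a join of two components without a double star -/
theorem NJ.cost_small (hy : Small j (topOf : P → Tops P) (topOf y)) (al rh : ℤ) :
    cost al rh j K z = al * (1 + (sa j (topOf : P → Tops P) K (uc y) (topOf y) +
      sa j (topOf : P → Tops P) K (uc v) (topOf v))) +
      rh * (sa j (topOf : P → Tops P) K (uc y) (topOf y) *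
        sa j (topOf : P → Tops P) K (uc v) (topOf v)) := by
  have hjr : j ≤ r := by have := h.hr; omega
  obtain ⟨h2, h3⟩ := NJ.join_small h R S hj hy (NJ.join_v h R S hj)
  unfold cost
  rw [K2.Ek_one_SD h.g.H hjr h.split R.mat R.sub S, h2, h3 3 le_rfl, add_zero]

/-- the exceptional double: its component has no double star -/
lemma NJ.bad_small (hb : BadR P j y) : Small j (topOf : P → Tops P) (topOf y) := by
  obtain ⟨m, x, c, β, B, -, hβ, -⟩ := hb
  rcases B.small h.g.H h.split with h1 | h1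
  · exact h1
  · exfalso
    rw [h1.2.1] at hβ
    norm_num at hβ

/-- the cost of a join with an exceptional double -/
theorem NJ.cost_bad (hb : BadR P j y) (al rh : ℤ) :
    cost al rh j K z = (al - rh) * sa j (topOf : P → Tops P) K (uc v) (topOf v) := by
  rw [NJ.cost_small h hj R S (NJ.bad_small h hj R S hb), sa_badR h R hb]
  ring

/-- the value of the single element of a join is nonnegative -/
lemma NJ.join_b : 0 ≤ sa j (topOf : P → Tops P) K (uc v) (topOf v) :=
  NJ.sa_single h hj R (S.lv' h.g.H) S.cv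

end cost

/-! ### the assignment of the joins to the component of their double -/

open Classical in
/-- the double of a join -/
noncomputable def dz (j : ℕ) (z : P) : P :=
  if h : ∃ y v, K2.SD j (topOf : P → Tops P) z y v then h.choose else z

lemma dz_spec {z : P} (hz : z ∈ K2.Z2 j (topOf : P → Tops P)) :
    ∃ v, K2.SD j (topOf : P → Tops P) z (dz j z) v := by
  classical
  obtain ⟨-, h1⟩ := K2.mem_Z2.1 hz
  unfold dz
  rw [dif_pos h1]
  exact h1.choose_spec

/-- the double and the single element of a join are unique -/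
lemma SD_unique {z y v y' v' : P} (S : K2.SD j (topOf : P → Tops P) z y v)
    (S' : K2.SD j (topOf : P → Tops P) z y' v') : y = y' ∧ v = v' := by
  have h1 : y ∈ ({y', v'} : Finset P) := by rw [← S'.huc]; exact S.my
  have h2 : v ∈ ({y', v'} : Finset P) := by rw [← S'.huc]; exact S.mv
  rw [mem_insert, mem_singleton] at h1 h2
  have a := S.cy
  have b := S.cv
  have a' := S'.cy
  have b' := S'.cv
  constructor
  · rcases h1 with h1 | h1
    · exact h1
    · rw [h1] at a
      omega
  · rcases h2 with h2 | h2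
    · rw [h2] at b
      omega
    · exact h2

/-- the joins whose double is in the component `t` -/
noncomputable def ZT (j : ℕ) (t : Tops P) : Finset P :=
  (K2.Z2 j (topOf : P → Tops P)).filter (fun z => topOf (dz j z) = t)

lemma mem_ZT {z : P} {t : Tops P} : z ∈ ZT j t ↔ z ∉ cuni (j + 1) (topOf : P → Tops P) ∧
    ∃ y v, K2.SD j (topOf : P → Tops P) z y v ∧ topOf y = t := by
  classical
  unfold ZT
  rw [mem_filter]
  constructor
  · rintro ⟨h1, h2⟩
    obtain ⟨v, S⟩ := dz_spec h1
    exact ⟨(K2.mem_Z2.1 h1).1, dz j z, v, S, h2⟩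
  · rintro ⟨h1, y, v, S, h2⟩
    have h3 : z ∈ K2.Z2 j (topOf : P → Tops P) := K2.mem_Z2.2 ⟨h1, y, v, S⟩
    obtain ⟨v', S'⟩ := dz_spec h3
    refine ⟨h3, ?_⟩
    rw [← (SD_unique S S').1]
    exact h2

lemma sum_ZT (f : P → ℤ) : ∑ z ∈ K2.Z2 j (topOf : P → Tops P), f z =
    ∑ t : Tops P, ∑ z ∈ ZT j t, f z := by
  classical
  unfold ZT
  exact (sum_fiberwise _ _ _).symm

/-- THE TOTAL, the joins assigned to the component of their double -/
theorem NJ.tot_win_t (h : NJ P r j) (hj : 2 ≤ j) (R : Red P j K psi) (al ka rh : ℤ) :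
    ∑ t : Tops P, (al * Lv j (Cj j t) + ka * wv j (Cj j t) +
      rh * (wv j (Cj j t) ^ 2 - 2 * wv6 j (Cj j t)) + 2 * ∑ z ∈ ZT j t, cost al rh j K z) = 0 := by
  have h1 := NJ.tot_win h hj R al ka rh
  rw [sum_ZT] at h1
  rw [sum_add_distrib, ← mul_sum]
  exact h1

/-- CONSEQUENCE: if the terms of all the components are nonnegative, they vanish -/
theorem NJ.win_zero (h : NJ P r j) (hj : 2 ≤ j) (R : Red P j K psi) {al ka rh : ℤ}
    (hT : ∀ t : Tops P, 0 ≤ al * Lv j (Cj j t) + ka * wv j (Cj j t) +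
      rh * (wv j (Cj j t) ^ 2 - 2 * wv6 j (Cj j t)) + 2 * ∑ z ∈ ZT j t, cost al rh j K z)
    (t : Tops P) : al * Lv j (Cj j t) + ka * wv j (Cj j t) +
      rh * (wv j (Cj j t) ^ 2 - 2 * wv6 j (Cj j t)) + 2 * ∑ z ∈ ZT j t, cost al rh j K z = 0 :=
  (sum_eq_zero_iff_of_nonneg (fun t _ => hT t)).1 (NJ.tot_win_t h hj R al ka rh) t (mem_univ t)

/-- a component without exceptional double: its joins cost at least `al` each -/
theorem NJ.ZT_good (h : NJ P r j) (hj : 2 ≤ j) (R : Red P j K psi) {al rh : ℤ} (hal : 0 ≤ al)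
    (hrh : 0 ≤ rh) {t : Tops P} (hb : ∀ y : P, topOf y = t → ¬ BadR P j y) :
    al * (ZT j t).card ≤ ∑ z ∈ ZT j t, cost al rh j K z := by
  classical
  rw [mul_comm, ← nsmul_eq_mul, ← sum_const]
  refine sum_le_sum fun z hz => ?_
  obtain ⟨-, y, v, S, hy⟩ := mem_ZT.1 hz
  exact NJ.cost_good h hj R S (hb y hy) hal hrh

end Pool.Agent.GaussPoset.EK
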